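import Pool.Agent.Helper53.PT.GoalsB

/-!
# MP_705522_gt, (T): packet ACOV
-/

namespace Pool.Agent.Helper77.PT

open MeasureTheory Set Filter Topology
open Pool.Agent.Helper53.PT

/-- All coordinates equal. -/
lemma good_of_const {n : ℕ} {t : Fin n → ℝ} (ht : Sx t) (h : ∀ l l', t l = t l') : Good t := by
  left
  intro i
  have h1 : ∑ l, t l = (n : ℝ) * t i := by
    rw [Finset.sum_congr rfl (fun l _ => h l i)]
    simp
  rw [ht.2] at h1
  have hn : (n : ℝ) ≠ 0 := by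
    intro h0
    rw [h0] at h1
    norm_num at h1
  field_simp
  linarith

/-- The product when all but two coordinates vanish. -/
lemma PP_two {θ : ℝ} (hz : f0 θ 0 = 1) {n : ℕ} {t : Fin n → ℝ} {i k : Fin n} (hik : i ≠ k)
    (h0 : ∀ l, l ≠ i → l ≠ k → t l = 0) (ξ : ℝ) :
    PP θ t ξ = f0 θ (t i * ξ ^ 2) * f0 θ (t k * ξ ^ 2) := by
  unfold PP
  rw [← Finset.mul_prod_erase Finset.univ _ (Finset.mem_univ i),
    ← Finset.mul_prod_erase (Finset.univ.erase i) _ (Finset.mem_erase.2 ⟨hik.symm, Finset.mem_univ k⟩)]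
  rw [Finset.prod_eq_one, mul_one]
  intro l hl
  have hlk : l ≠ k := Finset.ne_of_mem_erase hl
  have hli : l ≠ i := Finset.ne_of_mem_erase (Finset.mem_of_mem_erase hl)
  rw [h0 l hli hlk, zero_mul, hz]

/-- `G` when all but two coordinates vanish. -/
lemma G_two {θ : ℝ} (h0 : 0 < θ) (h1 : θ < 1 / 2) (hz : f0 θ 0 = 1) {n : ℕ} {t : Fin n → ℝ}
    {i k : Fin n} (hik : i ≠ k) (ht : Sx t) (hl : ∀ l, l ≠ i → l ≠ k → t l = 0) :
    G θ t = Real.pi / 2 / sg θ * (t i ^ (1 / (2 * θ)) + t k ^ (1 / (2 * θ))) ^ θ := by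
  unfold G
  rw [← (aPAIR h0 h1 (ht.1 i) (ht.1 k)).2]
  congr 1
  funext ξ
  rw [PP_two hz hik hl]

lemma good_of_two {θ : ℝ} (h0 : 0 < θ) (h1 : θ < 1 / 2) (hz : f0 θ 0 = 1) {n : ℕ} {t : Fin n → ℝ}
    (ht : IsMinT θ t) {i k : Fin n} (hik : i ≠ k) (hs : t i + t k = 1) : Good t := by
  have hl : ∀ l, l ≠ i → l ≠ k → t l = 0 := by
    intro l hli hlk
    have e := ht.1.2
    rw [← Finset.add_sum_erase Finset.univ _ (Finset.mem_univ i),
      ← Finset.add_sum_erase (Finset.univ.erase i) _ (Finset.mem_erase.2 ⟨hik.symm, Finset.mem_univ k⟩)] at e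
    have hsum : ∑ x ∈ (Finset.univ.erase i).erase k, t x = 0 := by linarith
    rw [Finset.sum_eq_zero_iff_of_nonneg (fun x _ => ht.1.1 x)] at hsum
    exact hsum l (Finset.mem_erase.2 ⟨hlk, Finset.mem_erase.2 ⟨hli, Finset.mem_univ l⟩⟩)
  -- the pair
  let s : Fin n → ℝ := fun l => if l = i then 1 / 2 else if l = k then 1 / 2 else 0
  have hsi : s i = 1 / 2 := by simp [s]
  have hsk : s k = 1 / 2 := by simp [s, hik.symm]
  have hs0 : ∀ l, l ≠ i → l ≠ k → s l = 0 := by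
    intro l hli hlk
    simp [s, hli, hlk]
  have hsx : Sx s := by
    refine ⟨?_, ?_⟩
    · intro l
      by_cases a : l = i
      · rw [a, hsi]; norm_num
      · by_cases b : l = k
        · rw [b, hsk]; norm_num
        · rw [hs0 l a b]
    · rw [← Finset.add_sum_erase Finset.univ _ (Finset.mem_univ i),
        ← Finset.add_sum_erase (Finset.univ.erase i) _ (Finset.mem_erase.2 ⟨hik.symm, Finset.mem_univ k⟩)]
      rw [Finset.sum_eq_zero, hsi, hsk]
      · norm_num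
      · intro l hl'
        exact hs0 l (Finset.ne_of_mem_erase (Finset.mem_of_mem_erase hl')) (Finset.ne_of_mem_erase hl')
  have hle := ht.2 s hsx
  rw [G_two h0 h1 hz hik ht.1 hl, G_two h0 h1 hz hik hsx hs0, hsi, hsk] at hle
  have hsg : 0 < sg θ := by
    unfold sg
    apply Real.sqrt_pos.2
    exact mul_pos (Real.Gamma_pos_of_pos (by linarith)) (Real.Gamma_pos_of_pos (by linarith))
  have hpos : 0 < Real.pi / 2 / sg θ := by positivity
  have hle2 := le_of_mul_le_mul_left hle hpos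
  set r : ℝ := 1 / (2 * θ) with hr
  have hr1 : 1 < r := by
    rw [hr, lt_div_iff₀ (by linarith)]
    linarith
  have hA : 0 ≤ t i ^ r + t k ^ r := add_nonneg (Real.rpow_nonneg (ht.1.1 i) _) (Real.rpow_nonneg (ht.1.1 k) _)
  have hB : (0 : ℝ) ≤ (1 / 2 : ℝ) ^ r + (1 / 2 : ℝ) ^ r := by positivity
  have hle3 : t i ^ r + t k ^ r ≤ (1 / 2 : ℝ) ^ r + (1 / 2 : ℝ) ^ r := by
    by_contra hcon
    push Not at hcon
    exact absurd hle2 (not_le.2 (Real.rpow_lt_rpow hB hcon h0))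
  have hEq : t i = t k := by
    by_contra hne
    have hc := (strictConvexOn_rpow hr1).2 (show t i ∈ Ici (0 : ℝ) from ht.1.1 i)
      (show t k ∈ Ici (0 : ℝ) from ht.1.1 k) hne (show (0 : ℝ) < 1 / 2 by norm_num)
      (show (0 : ℝ) < 1 / 2 by norm_num) (by norm_num)
    simp only [smul_eq_mul] at hc
    have e : (1 / 2 : ℝ) * t i + 1 / 2 * t k = 1 / 2 := by linarith
    rw [e] at hc
    linarith
  right
  exact ⟨i, k, hik, by linarith, by linarith, hl⟩

lemma sq_sum_le {n : ℕ} (S : Finset (Fin n)) (f : Fin n → ℝ) (hf : ∀ l ∈ S, 0 ≤ f l) :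
    ∑ l ∈ S, f l ^ 2 ≤ (∑ l ∈ S, f l) ^ 2 := by
  have h1 : ∀ l ∈ S, f l ^ 2 ≤ f l * ∑ x ∈ S, f x := by
    intro l hl
    rw [sq]
    exact mul_le_mul_of_nonneg_left (Finset.single_le_sum hf hl) (hf l hl)
  calc ∑ l ∈ S, f l ^ 2 ≤ ∑ l ∈ S, f l * ∑ x ∈ S, f x := Finset.sum_le_sum h1
    _ = (∑ l ∈ S, f l) ^ 2 := by rw [← Finset.sum_mul, sq]

lemma sum_sq_le_max {n : ℕ} (S : Finset (Fin n)) (f : Fin n → ℝ) (hf : ∀ l ∈ S, 0 ≤ f l) {M : ℝ}
    (hM : ∀ l ∈ S, f l ≤ M) : ∑ l ∈ S, f l ^ 2 ≤ M * ∑ l ∈ S, f l := by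
  rw [Finset.mul_sum]
  apply Finset.sum_le_sum
  intro l hl
  rw [sq]
  exact mul_le_mul_of_nonneg_right (hM l hl) (hf l hl)

/-- sum of squares when the coordinates are at most `m - e` -/
lemma sum_sq_cap {n : ℕ} (S : Finset (Fin n)) (f : Fin n → ℝ) (hf : ∀ l ∈ S, 0 ≤ f l) {m e : ℝ}
    (he : 0 ≤ e) (hem : 2 * e ≤ m) (hm : ∑ l ∈ S, f l = m) (hM : ∀ l ∈ S, f l ≤ m - e) :
    ∑ l ∈ S, f l ^ 2 ≤ (m - e) ^ 2 + e ^ 2 := by
  by_cases hbig : ∃ k ∈ S, m / 2 ≤ f k
  · obtain ⟨k, hk, hk2⟩ := hbig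
    have h1 : ∑ l ∈ S, f l ^ 2 = f k ^ 2 + ∑ l ∈ S.erase k, f l ^ 2 :=
      (Finset.add_sum_erase S (fun l => f l ^ 2) hk).symm
    have h2 : ∑ l ∈ S.erase k, f l = m - f k := by
      have := Finset.add_sum_erase S f hk
      linarith
    have h3 := sq_sum_le (S.erase k) f (fun l hl => hf l (Finset.mem_of_mem_erase hl))
    rw [h2] at h3
    have h4 := hM k hk
    rw [h1]
    nlinarith
  · push Not at hbig
    have h1 := sum_sq_le_max S f hf (M := m / 2) (fun l hl => (hbig l hl).le)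
    rw [hm] at h1
    nlinarith [sq_nonneg (m - 2 * e)]

theorem gACOV : GACOV := by
  intro θ hθ0 hθ1 n t ht
  have h0 : 0 < θ := by linarith
  refine ⟨good_of_const ht, ?_, ?_⟩
  · intro hmin i k hik hs
    exact good_of_two h0 hθ1 (f0_zero h0 hθ1) hmin hik hs
  · intro i j hij hmm
    have hnn := ht.1
    have hsum : t i + ∑ l ∈ Finset.univ.erase i, t l = 1 := by
      rw [Finset.add_sum_erase Finset.univ t (Finset.mem_univ i)]
      exact ht.2
    have hjm : j ∈ Finset.univ.erase i := Finset.mem_erase.2 ⟨hij.symm, Finset.mem_univ j⟩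
    have hsum2 : t j + ∑ l ∈ (Finset.univ.erase i).erase j, t l = ∑ l ∈ Finset.univ.erase i, t l :=
      Finset.add_sum_erase _ t hjm
    have hsum3 : t j ^ 2 + ∑ l ∈ (Finset.univ.erase i).erase j, t l ^ 2 =
        ∑ l ∈ Finset.univ.erase i, t l ^ 2 := Finset.add_sum_erase _ (fun l => t l ^ 2) hjm
    have hn2 : 2 ≤ n := by
      have h := Fintype.one_lt_card_iff.2 ⟨i, j, hij⟩
      rw [Fintype.card_fin] at h
      exact h
    have hc1 : ((Finset.univ.erase i).card : ℝ) = (n : ℝ) - 1 := by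
      rw [Finset.card_erase_of_mem (Finset.mem_univ i), Finset.card_univ, Fintype.card_fin,
        Nat.cast_sub (by omega)]
      simp
    have hc2 : (((Finset.univ.erase i).erase j).card : ℝ) = (n : ℝ) - 2 := by
      rw [Finset.card_erase_of_mem hjm, Finset.card_erase_of_mem (Finset.mem_univ i), Finset.card_univ,
        Fintype.card_fin, Nat.sub_sub, Nat.cast_sub (by omega)]
      norm_num
    have hE1 : ∑ l ∈ Finset.univ.erase i, t l = 1 - t i := by linarith
    have hE2 : ∑ l ∈ (Finset.univ.erase i).erase j, t l = 1 - t i - t j := by linarith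
    have hE3 : ∑ l ∈ (Finset.univ.erase i).erase j, t l ^ 2 =
        ∑ l ∈ Finset.univ.erase i, t l ^ 2 - t j ^ 2 := by linarith
    have he : ((n : ℝ) - 1) * t j ≤ 1 - t i := by
      rw [← hE1, ← hc1, ← nsmul_eq_mul]
      exact Finset.card_nsmul_le_sum _ _ _ (fun l _ => (hmm l).2)
    refine ⟨?_, ?_, ?_, ?_, he, ?_, ?_, ?_⟩
    · rw [← hE1, ← hc1]
      exact sq_sum_le_card_mul_sum_sq
    · rw [← hE2, ← hE3, ← hc2]
      exact sq_sum_le_card_mul_sum_sq
    · rw [← hE1]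
      exact sum_sq_le_max _ _ (fun l _ => hnn l) (fun l _ => (hmm l).1)
    · rw [← hE1]
      exact sq_sum_le _ _ (fun l _ => hnn l)
    · rw [← ht.2]
      have := Finset.sum_le_card_nsmul Finset.univ t (t i) (fun l _ => (hmm l).1)
      rw [Finset.card_univ, Fintype.card_fin, nsmul_eq_mul] at this
      exact this
    · intro e he0 he2 hcap
      exact sum_sq_cap _ _ (fun l _ => hnn l) he0 he2 hE1 (fun l hl => hcap l (Finset.ne_of_mem_erase hl))
    · intro hn3 k hki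
      by_cases hkj : k = j
      · subst hkj
        rw [hn3] at he
        norm_num at he
        linarith
      · have hk : k ∈ (Finset.univ.erase i).erase j :=
          Finset.mem_erase.2 ⟨hkj, Finset.mem_erase.2 ⟨hki, Finset.mem_univ k⟩⟩
        rw [← hE2]
        exact Finset.single_le_sum (fun l _ => hnn l) hk

end Pool.Agent.Helper77.PT
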